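import Pool.Agent.Q98.ChainC

/-!
# Commutator containment and a non-normal subgroup in free groups (MP_16b0c2_al)

If `R` is a normal subgroup of a noncyclic free group `F` and `S` is an arbitrary subgroup with
`[R, R] ≤ [S, S]`, then `R ≤ S`.
-/

set_option autoImplicit false

namespace Pool.Agent.Results.MP_16b0c2_al.NormalContained

open Pool.Agent.Q98.Chain
open Pool.Agent.Helper180.FreeMetric (zpow_of_subsingleton)

/-- The answer is yes: in a noncyclic free group `F` (of any rank, finite or infinite), if `R` is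
normal, `S` is an arbitrary subgroup and `[R, R] ≤ [S, S]`, then `R ≤ S`. -/
theorem result (F : Type) [Group F] [IsFreeGroup F] (hF : ¬ IsCyclic F) (R S : Subgroup F)
    (hR : R.Normal) (h : ⁅R, R⁆ ≤ ⁅S, S⁆) : R ≤ S := by
  let Z : Type := IsFreeGroup.Generators F
  let e : F ≃* FreeGroup Z := IsFreeGroup.toFreeGroup F
  obtain ⟨z1, z2, hz⟩ : ∃ z1 z2 : Z, z1 ≠ z2 := by
    by_contra hno
    push Not at hno
    have hsub : Subsingleton Z := ⟨hno⟩
    apply hF
    rcases isEmpty_or_nonempty Z with hZ | ⟨⟨i⟩⟩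
    · refine ⟨⟨1, fun x => ⟨0, ?_⟩⟩⟩
      apply e.injective
      exact Subsingleton.elim _ _
    · refine ⟨⟨e.symm (FreeGroup.of i), fun x => ?_⟩⟩
      obtain ⟨n, hn⟩ := zpow_of_subsingleton hsub i (e x)
      refine ⟨n, ?_⟩
      apply e.injective
      change e (e.symm (FreeGroup.of i) ^ n) = e x
      rw [map_zpow, MulEquiv.apply_symm_apply, hn]
  have h1 : R.map e.toMonoidHom ≤ S.map e.toMonoidHom := by
    refine main_basis _ _ (hR.map e.toMonoidHom e.surjective) ?_ hz
    rw [← Subgroup.map_commutator, ← Subgroup.map_commutator]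
    exact Subgroup.map_mono h
  intro r hr
  obtain ⟨s, hs, hs2⟩ := h1 (Subgroup.mem_map_of_mem e.toMonoidHom hr)
  have h3 : s = r := e.injective hs2
  rw [← h3]
  exact hs

end Pool.Agent.Results.MP_16b0c2_al.NormalContained
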